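import Mathlib
import Pool.Agent.Y703.CQ.Stm

/-!
# Project AD (helper78): the exact proportion of the good `D` among ALL the squarefree `D ≡ 1` modulo
# `4` prime to `7` (the twists of `X_0(49)`)

`S` is a finite set of odd primes different from `7`, with an even number of primes `≡ 3` modulo `4`.
A prime is split if it splits in `ℚ(√-7)`. The label `mk p` of a prime: `0` inert, `1` modulo `4`; `1`
split, `1` modulo `4`; `2` inert, `3` modulo `4`; `3` split, `3` modulo `4`.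
The linear system `Sol` over `𝔽₂` (unknowns `u p` for all `p`, `v p` for the split `p`) has only the
zero solution for exactly the proportion `c2 / 2 = (∏_{i ≥ 0} (1 - 2^{-(2i+1)})) / 2` of these sets.
If the number of primes with label `3` is smaller than the number of primes with label `2`, there is
always a nonzero solution; the difference of these two numbers is usually large (in absolute value), and
if it is positive, then the proportion is `c2`.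

Statements of the parts (after projects CX and CQ of helper703).
-/

set_option autoImplicit false
set_option linter.unusedVariables false

open scoped Classical

namespace Pool.Agent.T3h78.AD

open Finset
open Pool.Agent.Y703.CX (sm la jj XX eL zz kk S_SIE)
open Pool.Agent.Y703.CQ (nr sg c2 prs ext S_SYM S_C2 S_MER S_CHE)

/-! ### labels and symbols -/

/-- split in `ℚ(√-7)` -/
def sp (p : ℕ) : Prop := p % 7 = 1 ∨ p % 7 = 2 ∨ p % 7 = 4

/-- the label of a prime -/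
noncomputable def mk (p : ℕ) : ℕ := (if sp p then 1 else 0) + (if p % 4 = 3 then 2 else 0)

/-- the primes of the project -/
def Pr (p : ℕ) : Prop := p.Prime ∧ p ≠ 2 ∧ p ≠ 7

/-- `1` if `7` is not a square modulo `p` (labels `0` and `3`), `0` otherwise (labels `1`, `2`) -/
noncomputable def cc (p : ℕ) : ZMod 2 := if mk p = 1 ∨ mk p = 2 then 0 else 1

/-- the coordinates `(x, y)` of a prime element `x + y ω ≡ 1` modulo `ω²` of norm `p`,
`ω² - ω + 2 = 0` -/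
noncomputable def pr (p : ℕ) : ℤ × ℤ :=
  if h : ∃ t : ℤ × ℤ, t.1 ^ 2 + t.1 * t.2 + 2 * t.2 ^ 2 = p ∧ t.1 % 4 = 1 ∧ t.2 % 2 = 0 then h.choose
  else (1, 0)

/-- the class of `ω` modulo this prime element -/
noncomputable def rt (p : ℕ) : ZMod p := -(((pr p).1 : ℤ) : ZMod p) * (((pr p).2 : ℤ) : ZMod p)⁻¹

/-- the quadratic symbol (additively) of the prime element of norm `p` modulo the conjugate of the
prime element of norm `q` -/
noncomputable def fs (p q : ℕ) : ZMod 2 := if p = q then 0 else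
  if IsSquare ((((pr p).1 : ℤ) : ZMod q) + (((pr p).2 : ℤ) : ZMod q) * (1 - rt q)) then 0 else 1

/-- the symbol of `√-7 = 2 ω - 1` modulo the prime element of norm `p` -/
noncomputable def tu (p : ℕ) : ZMod 2 := if IsSquare (2 * rt p - 1) then 0 else 1

/-- the symbol of the prime element of norm `p` modulo its conjugate -/
noncomputable def dg (p : ℕ) : ZMod 2 :=
  if IsSquare ((((pr p).1 : ℤ) : ZMod p) + (((pr p).2 : ℤ) : ZMod p) * (1 - rt p)) then 0 else 1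

/-- a function set to zero on the inert primes -/
noncomputable def cu (v : ℕ → ZMod 2) (q : ℕ) : ZMod 2 := if sp q then v q else 0

/-- the linear system; `nr r p = 0` if `p` is a square modulo `r` (in particular `nr r r = 0`) -/
structure Sol (S : Finset ℕ) (u v : ℕ → ZMod 2) : Prop where
  one : ∀ r ∈ S, cc r * u r + ∑ p ∈ S, nr r p * cu v p + (tu r + ∑ q ∈ S, nr q r) * cu v r = 0
  two : ∀ p ∈ S, sp p → ∑ r ∈ S, nr r p * (u r + u p) + tu p * u p +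
    ∑ q ∈ S, fs p q * cu v q + dg p * v p = 0

/-- the good sets: only the zero solution -/
def Gd (S : Finset ℕ) : Prop := ∀ u v, Sol S u v → ∀ p ∈ S, u p = 0 ∧ cu v p = 0

/-- the class of the sets of primes -/
def Cl (S : Finset ℕ) : Prop := (∀ p ∈ S, Pr p) ∧ (S.filter fun p => p % 4 = 3).card % 2 = 0

/-- the sets of the class with product at most `X` -/
noncomputable def SS (X : ℕ) : Finset (Finset ℕ) :=
  (range (X + 1)).powerset.filter fun S => Cl S ∧ ∏ p ∈ S, p ≤ X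

/-- the number of primes with label `3` minus the number of primes with label `2` -/
noncomputable def kv (S : Finset ℕ) : ℤ :=
  ((S.filter fun p => mk p = 3).card : ℤ) - ((S.filter fun p => mk p = 2).card : ℤ)

/-- FINAL: the proportion of the good sets -/
def S_DQ : Prop := Filter.Tendsto
  (fun X : ℕ => (((SS X).filter Gd).card : ℝ) / ((SS X).card : ℝ)) Filter.atTop (nhds (c2 / 2))

/-- FINAL, in terms of the numbers `D`. -/
def S_DEN : Prop := Filter.Tendsto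
  (fun X : ℕ => (((Icc 1 X).filter fun D => (Squarefree D ∧ D % 4 = 1 ∧ ¬ 7 ∣ D) ∧
      Gd D.primeFactors).card : ℝ) /
    (((Icc 1 X).filter fun D => Squarefree D ∧ D % 4 = 1 ∧ ¬ 7 ∣ D).card : ℝ))
  Filter.atTop (nhds (c2 / 2))

/-- AD-NS: the translation. -/
def S_NS : Prop := S_DQ → S_DEN

/-- AD-FS: the reciprocity law. -/
def S_FS : Prop := ∀ p q : ℕ, Pr p → sp p → Pr q → sp q → fs p q = fs q p

/-- AD-NORM: the prime element of norm `p`. -/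
def S_NORM : Prop := ∀ p : ℕ, Pr p → sp p → (pr p).1 ^ 2 + (pr p).1 * (pr p).2 + 2 * (pr p).2 ^ 2 = p ∧
  (pr p).1 % 4 = 1 ∧ (pr p).2 % 2 = 0 ∧ rt p ^ 2 - rt p + 2 = 0 ∧
  (((pr p).1 : ℤ) : ZMod p) + (((pr p).2 : ℤ) : ZMod p) * rt p = 0

/-! ### bilinear sums -/

/-- AD-BIL: bilinear sums of Legendre symbols. -/
def S_BIL : Prop := ∃ C : ℝ, 1 ≤ C ∧ ∀ (P Q : Finset ℕ) (A B z r s : ℕ) (c d : ℕ → ℂ),
  (∀ p ∈ P, p.Prime ∧ p ≠ 2 ∧ p % 4 = r ∧ p ≤ A) → (∀ q ∈ Q, q.Prime ∧ q ≠ 2 ∧ q % 4 = s ∧ q ≤ B) →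
  Disjoint P Q → 1 ≤ z → z ≤ A → z ≤ B → (∀ p, ‖c p‖ ≤ 1) → (∀ q, ‖d q‖ ≤ 1) →
  ‖∑ p ∈ P, ∑ q ∈ Q, c p * d q * sg (nr p q)‖ ^ 12 * z ≤ C * ((A : ℝ) * B) ^ 12

/-- AD-BILK: bilinear sums of the quadratic symbols of `ℚ(√-7)`. -/
def S_BILK : Prop := S_FS → S_NORM → ∃ C : ℝ, 1 ≤ C ∧
  ∀ (P Q : Finset ℕ) (A B z r s : ℕ) (c d : ℕ → ℂ) (a : ZMod 2),
  (∀ p ∈ P, Pr p ∧ sp p ∧ p % 4 = r ∧ p ≤ A) → (∀ q ∈ Q, Pr q ∧ sp q ∧ q % 4 = s ∧ q ≤ B) →
  Disjoint P Q → 1 ≤ z → z ≤ A → z ≤ B → (∀ p, ‖c p‖ ≤ 1) → (∀ q, ‖d q‖ ≤ 1) →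
  ‖∑ p ∈ P, ∑ q ∈ Q, c p * d q * sg (a * nr p q + fs p q)‖ ^ 12 * z ≤ C * ((A : ℝ) * B) ^ 12

/-- the pairs of different elements of `J₁` -/
noncomputable def prs2 {ι : Type} [Fintype ι] [LinearOrder ι] (J1 : Finset ι) : Finset (ι × ι) :=
  univ.filter fun e => e.1 ∈ J1 ∧ e.2 ∈ J1 ∧ e.1 < e.2

/-- the bilinear hypothesis for a box -/
def HB {ι : Type} (J1 : Finset ι) (C : ι → Finset ℕ) (X : ι → ℕ) (κ : ℝ) : Prop :=
  ∀ i l : ι, i ≠ l → i ∈ J1 → ∀ a b : ZMod 2, (a ≠ 0 ∨ b ≠ 0) → (b ≠ 0 → l ∈ J1) →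
    ∀ c d : ℕ → ℂ, (∀ p, ‖c p‖ ≤ 1) → (∀ q, ‖d q‖ ≤ 1) →
    ‖∑ x ∈ C i, ∑ y ∈ C l, c x * d y * sg (a * nr x y + b * fs x y)‖ ≤ κ * (X i * X l)

/-- AD-EQ: equidistribution of the symbols of a tuple. -/
def S_EQ : Prop := ∀ (ι : Type) [Fintype ι] [LinearOrder ι] (J1 : Finset ι) (C : ι → Finset ℕ)
  (X : ι → ℕ) (κ : ℝ), 0 ≤ κ → (∀ i, (C i).card ≤ X i) → HB J1 C X κ →
  ∀ Q : (prs J1 → ZMod 2) × (prs2 J1 → ZMod 2) → Prop,
    |(((Fintype.piFinset C).filter fun p => Q (fun e => nr (p e.1.1) (p e.1.2),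
        fun e => fs (p e.1.1) (p e.1.2))).card : ℝ) -
      ((univ.filter Q).card : ℝ) / 2 ^ ((prs J1).card + (prs2 J1).card) * ∏ j, ((C j).card : ℝ)| ≤
    2 ^ ((prs J1).card + (prs2 J1).card) * (κ * ∏ j, (X j : ℝ))

/-! ### linear algebra -/

/-- the system over a finite type of indices -/
def GdI {ι : Type} [Fintype ι] (s : ι → Prop) (c : ι → ZMod 2) (E F : ι → ι → ZMod 2)
    (t d : ι → ZMod 2) : Prop :=
  ∀ u v : ι → ZMod 2, (∀ i, ¬ s i → v i = 0) →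
    (∀ r, c r * u r + ∑ p, E r p * v p + (t r + ∑ q, E q r) * v r = 0) →
    (∀ p, s p → ∑ r, E r p * (u r + u p) + t p * u p + ∑ q, F p q * v q + d p * v p = 0) →
    (∀ i, u i = 0) ∧ ∀ i, v i = 0

/-- the symmetric extension of the second symbols -/
noncomputable def ext2 {ι : Type} [Fintype ι] [LinearOrder ι] {J1 : Finset ι}
    (β : prs2 J1 → ZMod 2) (k l : ι) : ZMod 2 :=
  if h : (k, l) ∈ prs2 J1 then β ⟨(k, l), h⟩ else if h : (l, k) ∈ prs2 J1 then β ⟨(l, k), h⟩ else 0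

/-- the first symbols of all pairs: constants plus the free symbols (`E r p` is changed only for
large `r`, `p` with `p ∈ J1`, by `ext α p r`) -/
noncomputable def EE {U J : Type} [Fintype J] [LinearOrder J] {J1 : Finset J}
    (E₀ : U ⊕ J → U ⊕ J → ZMod 2) (α : prs J1 → ZMod 2) (r p : U ⊕ J) : ZMod 2 :=
  match r, p with
  | Sum.inr r, Sum.inr p => E₀ (Sum.inr r) (Sum.inr p) + if p ∈ J1 then ext α p r else 0
  | r, p => E₀ r p

/-- the second symbols of all pairs: constants plus the free symbols -/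
noncomputable def FF {U J : Type} [Fintype J] [LinearOrder J] {J1 : Finset J}
    (F₀ : U ⊕ J → U ⊕ J → ZMod 2) (β : prs2 J1 → ZMod 2) (p q : U ⊕ J) : ZMod 2 :=
  match p, q with
  | Sum.inr p, Sum.inr q => F₀ (Sum.inr p) (Sum.inr q) + ext2 β p q
  | p, q => F₀ p q

/-- AD-ALT: for even `k` the number of the nonsingular symmetric matrices with given diagonal. -/
def S_ALT : Prop := S_SYM → ∀ (k : ℕ) (M : Matrix (Fin k) (Fin k) (ZMod 2)), k % 2 = 0 → M.IsSymm →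
  (Nat.card {A : Matrix (Fin k) (Fin k) (ZMod 2) // A.IsSymm ∧ (∀ i, A i i = 0) ∧
    (M + A).det ≠ 0} : ℝ) =
    2 ^ (k * (k - 1) / 2) * ∏ i ∈ range (k / 2), (1 - (1 / 2 : ℝ) ^ (2 * i + 1))

/-- the first part of the matrix is injective -/
def InjR {ι : Type} [Fintype ι] (s : ι → Prop) (c : ι → ZMod 2) (E : ι → ι → ZMod 2)
    (t : ι → ZMod 2) : Prop :=
  ∀ x : ι → ZMod 2, (∀ i, c i ≠ 0 → x i = 0) →
    (∀ p, s p → ∑ r, E r p * (x r + x p) + t p * x p = 0) → ∀ i, x i = 0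

/-- AD-LA1: the second symbols; `k` is the number of the split indices minus the number of the indices
with `c = 0`. -/
def S_LA1 : Prop := S_ALT → ∀ (U J : Type) [Fintype U] [Fintype J] [LinearOrder J]
  (s : U ⊕ J → Prop) (c : U ⊕ J → ZMod 2) (J1 : Finset J) (k : ℕ),
  (∀ j, j ∈ J1 ↔ s (Sum.inr j)) →
  (univ.filter s).card = (univ.filter fun i => c i = 0).card + k → k % 2 = 0 →
  ∀ (E F₀ : U ⊕ J → U ⊕ J → ZMod 2) (t d : U ⊕ J → ZMod 2), (∀ p q, F₀ p q = F₀ q p) →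
  InjR s c E t →
  (∀ v : U ⊕ J → ZMod 2, (∀ i, ¬ s i → v i = 0) → (∀ j, v (Sum.inr j) = 0) →
    (∀ r, c r = 0 → ∑ p, E r p * v p + (t r + ∑ q, E q r) * v r = 0) → ∀ i, v i = 0) →
  ((univ.filter fun β : prs2 J1 → ZMod 2 => GdI s c E (FF F₀ β) t d).card : ℝ) =
    2 ^ (prs2 J1).card * ∏ i ∈ range (k / 2), (1 - (1 / 2 : ℝ) ^ (2 * i + 1))

/-- AD-LA2: the first symbols. -/
def S_LA2 : Prop := ∀ (U J : Type) [Fintype U] [Fintype J] [LinearOrder J] (s : U ⊕ J → Prop)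
  (c : U ⊕ J → ZMod 2) (J1 : Finset J) (k : ℕ), (∀ j, j ∈ J1 ↔ s (Sum.inr j)) →
  (∃ l, ¬ s (Sum.inr l) ∧ c (Sum.inr l) = 1) →
  (univ.filter s).card = (univ.filter fun i => c i = 0).card + k →
  ∀ (E₀ : U ⊕ J → U ⊕ J → ZMod 2) (t : U ⊕ J → ZMod 2),
  (∀ x : U → ZMod 2, (∀ u, x u ≠ 0 → c (Sum.inl u) = 0) → (∃ u, x u ≠ 0) →
    ∃ p ∈ J1, ∑ u, x u * E₀ (Sum.inl u) (Sum.inr p) ≠ 0) →
  ((univ.filter fun α : prs J1 → ZMod 2 => ¬ InjR s c (EE E₀ α) t).card : ℝ) ≤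
    2 ^ (prs J1).card * (2 ^ Fintype.card U / 2 ^ k)

/-- AD-LA: the probability that a random completion is good. `J1` are the split large indices. -/
def S_LA : Prop := ∀ (U J : Type) [Fintype U] [Fintype J] [LinearOrder J] (s : U ⊕ J → Prop)
  (c : U ⊕ J → ZMod 2) (J1 : Finset J) (k : ℕ), (∀ j, j ∈ J1 ↔ s (Sum.inr j)) →
  (∃ l, ¬ s (Sum.inr l) ∧ c (Sum.inr l) = 1) →
  (univ.filter s).card = (univ.filter fun i => c i = 0).card + k → k % 2 = 0 →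
  ∀ (E₀ F₀ : U ⊕ J → U ⊕ J → ZMod 2) (t d : U ⊕ J → ZMod 2), (∀ p q, F₀ p q = F₀ q p) →
  (∀ x : U → ZMod 2, (∀ u, x u ≠ 0 → c (Sum.inl u) = 0) → (∃ u, x u ≠ 0) →
    ∃ p ∈ J1, ∑ u, x u * E₀ (Sum.inl u) (Sum.inr p) ≠ 0) →
  (∀ w : U → ZMod 2, (∀ u, w u ≠ 0 → s (Sum.inl u)) → (∃ u, w u ≠ 0) →
    ∃ r, c (Sum.inr r) = 0 ∧ ∑ u, w u * E₀ (Sum.inr r) (Sum.inl u) ≠ 0) →
  |((univ.filter fun x : (prs J1 → ZMod 2) × (prs2 J1 → ZMod 2) =>
      GdI s c (EE E₀ x.1) (FF F₀ x.2) t d).card : ℝ) / 2 ^ ((prs J1).card + (prs2 J1).card) - c2| ≤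
    2 * (2 ^ Fintype.card U / 2 ^ k)

/-- AD-LAA: the assembly. -/
def S_LAA : Prop := S_ALT → S_LA1 → S_LA2 → S_C2 → S_LA

/-- AD-NEG: more inert primes `3` modulo `4` than split primes `3` modulo `4`: always a solution. -/
def S_NEG : Prop := ∀ S : Finset ℕ, (∀ p ∈ S, Pr p) → kv S < 0 → ¬ Gd S

/-- AD-PAR: the parity. -/
def S_PAR : Prop := ∀ S : Finset ℕ, Cl S → kv S % 2 = 0

/-! ### boxes -/

/-- the labels of the large primes with respect to the small ones are not degenerate -/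
def Nd (S₀ S₁ : Finset ℕ) : Prop :=
  (∀ w : ℕ → ZMod 2, (∃ u ∈ S₀, (mk u = 1 ∨ mk u = 2) ∧ w u ≠ 0) →
    ∃ p ∈ S₁, sp p ∧ ∑ u ∈ S₀.filter (fun u => mk u = 1 ∨ mk u = 2), w u * nr u p ≠ 0) ∧
  ∀ w : ℕ → ZMod 2, (∃ u ∈ S₀, sp u ∧ w u ≠ 0) →
    ∃ r ∈ S₁, (mk r = 1 ∨ mk r = 2) ∧ ∑ u ∈ S₀.filter sp, w u * nr r u ≠ 0

/-- AD-BOX: the count in a box. -/
def S_BOX : Prop := S_FS → S_EQ → S_LA → ∀ (ι : Type) [Fintype ι] [LinearOrder ι]
  (lab : ι → ℕ) (C : ι → Finset ℕ) (X : ι → ℕ) (κ : ℝ) (S₀ : Finset ℕ) (k : ℕ), 0 ≤ κ →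
  (∀ i, (C i).card ≤ X i) → HB (univ.filter fun i => lab i = 1 ∨ lab i = 3) C X κ →
  (∀ u ∈ S₀, Pr u) → (∀ i, ∀ p ∈ C i, Pr p ∧ p ∉ S₀ ∧ mk p = lab i) → (∀ i, lab i < 4) →
  (∀ i l, i ≠ l → Disjoint (C i) (C l)) → (∃ i, lab i = 0) →
  kv S₀ + ((univ.filter fun i => lab i = 3).card : ℤ) - ((univ.filter fun i => lab i = 2).card : ℤ) =
    k → k % 2 = 0 →
  |(((Fintype.piFinset C).filter fun p => Nd S₀ (univ.image p) ∧ Gd (S₀ ∪ univ.image p)).card : ℝ) -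
      c2 * (((Fintype.piFinset C).filter fun p => Nd S₀ (univ.image p)).card : ℝ)| ≤
    2 * (2 ^ S₀.card / 2 ^ k) *
      (((Fintype.piFinset C).filter fun p => Nd S₀ (univ.image p)).card : ℝ) +
    2 ^ ((3 * S₀.card + 2) * Fintype.card ι +
      ((prs (univ.filter fun i => lab i = 1 ∨ lab i = 3)).card +
        (prs2 (univ.filter fun i => lab i = 1 ∨ lab i = 3)).card)) * (κ * ∏ j, (X j : ℝ))

/-- the regular sets -/
noncomputable def RR (X z H K V : ℕ) : Finset (Finset ℕ) :=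
  (SS X).filter fun S => Set.InjOn (jj H) (la z S : Set ℕ) ∧ S.card ≤ K ∧
    (∏ p ∈ sm z S, p) * ∏ p ∈ la z S, XX H (jj H p) ≤ X ∧
    ((sm z S).card : ℤ) + V ≤ kv S ∧ ∃ p ∈ la z S, mk p = 0

/-- AD-KEY: the sum over the boxes. -/
def S_KEY : Prop := S_FS → S_NORM → S_BIL → S_BILK → S_EQ → S_LA → S_BOX → S_PAR →
  ∃ C : ℝ, 1 ≤ C ∧ ∀ (X z H K V N : ℕ) (κ : ℝ), 1 ≤ X → 1 ≤ H → 1 ≤ z →
  0 ≤ κ → C ≤ κ ^ 12 * z → (H : ℝ) * Real.log X < N →
  |(((RR X z H K V).filter fun S => Nd (sm z S) (la z S) ∧ Gd S).card : ℝ) -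
      c2 * (((RR X z H K V).filter fun S => Nd (sm z S) (la z S)).card : ℝ)| ≤
    2 * (1 / 2 : ℝ) ^ V * ((RR X z H K V).card : ℝ) +
    (9 * N + 9 : ℝ) ^ K * (3 ^ (3 * K ^ 2) * κ) * (X * (1 + Real.log X))

/-! ### exceptional sets -/

/-- AD-CNT: sets with many primes, sets near the boundary, sets with two primes in a block. -/
structure CntP : Prop where
  many : ∀ (X K : ℕ), 1 ≤ X →
    (((SS X).filter fun S => K < S.card).card : ℝ) * 2 ^ K ≤ X * (1 + Real.log X)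
  cut : ∀ (X z H K : ℕ), 1 ≤ X → 1 ≤ H →
    (((SS X).filter fun S => S.card ≤ K ∧
      X < (∏ p ∈ sm z S, p) * ∏ p ∈ la z S, XX H (jj H p)).card : ℝ) ≤ X * K / H + 1
  coll : ∀ (X z H : ℕ), 1 ≤ X → 1 ≤ H → (((SS X).filter fun S =>
    ¬ Set.InjOn (jj H) (la z S : Set ℕ)).card : ℝ) ≤ 4 * X * (1 + Real.log X) / H

/-- the class of primes in the two conditions on the labels: `j = 0` split; `j = 1` labels `1`, `2` -/
def cls (j : Fin 2) (p : ℕ) : Prop := if j = 0 then sp p else (mk p = 1 ∨ mk p = 2)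

/-- the sets of primes of a class on which a quadratic character is one -/
noncomputable def HD (j : Fin 2) (e : ZMod 2) (W : Finset ℕ) (T : ℕ) : Finset (Finset ℕ) :=
  (range (T + 1)).powerset.filter fun S => (∀ p ∈ S, Pr p ∧ cls j p ∧ p ∉ W ∧
    ∑ u ∈ W, nr p u + (if p % 4 = 3 then e else 0) = 0) ∧ ∏ p ∈ S, p ≤ T

/-- AD-HAL: the logarithmic density for a nontrivial quadratic character. -/
def S_HAL : Prop := ∃ C : ℝ, 1 ≤ C ∧ ∀ (j : Fin 2) (e : ZMod 2) (W : Finset ℕ) (T : ℕ),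
  W.Nonempty → (∀ u ∈ W, Pr u) → 2 ≤ T →
  ∑ S ∈ HD j e W T, (1 : ℝ) / ((∏ p ∈ S, p : ℕ) : ℝ) ≤
    C * (Real.log ((∏ u ∈ W, u : ℕ) : ℝ)) ^ (1 / 2 : ℝ) * (Real.log T) ^ (1 / 4 : ℝ)

/-- AD-BAD: few sets have degenerate labels. -/
def S_BAD : Prop := S_SIE → S_HAL → S_MER → ∃ (C : ℝ) (X₀ : ℕ), ∀ X : ℕ, X₀ ≤ X →
  (((SS X).filter fun S => S.card ≤ kk X ∧ ¬ Nd (sm (zz X) S) (la (zz X) S)).card : ℝ) ≤
    C * X * (Real.log X) ^ (-(1 / 8) : ℝ)

/-- AD-FEW: few sets have no large prime with label `0`. -/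
def S_FEW : Prop := S_SIE → S_MER → ∃ (C : ℝ) (X₀ : ℕ), ∀ X : ℕ, X₀ ≤ X →
  (((SS X).filter fun S => ∀ p ∈ la (zz X) S, mk p ≠ 0).card : ℝ) ≤
    C * X * (Real.log X) ^ (-(1 / 8) : ℝ)

/-- AD-LOW: the lower bound for the size of the class. -/
def S_LOW : Prop := ∃ (c : ℝ) (X₀ : ℕ), 0 < c ∧ ∀ X : ℕ, X₀ ≤ X → c * X ≤ ((SS X).card : ℝ)

/-! ### the sign of `kv` -/

/-- AD-COIN: `kv S` is large with probability `1 / 2`. -/
def S_COIN : Prop := ∀ (b : ℕ) (V : ℤ), b ≤ 1 → Filter.Tendsto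
  (fun X : ℕ => (((SS X).filter fun S => (b : ℤ) * (sm (zz X) S).card + V < kv S).card : ℝ) /
    ((SS X).card : ℝ)) Filter.atTop (nhds (1 / 2))

/-- the number of blocks per unit of `log`, for COIN -/
noncomputable def GG (X : ℕ) : ℕ := ⌈(eL X) ^ 3⌉₊

/-- the primes of a block with given label -/
noncomputable def cel (G j s : ℕ) : Finset ℕ :=
  (range (XX G j + 1)).filter fun p => Pr p ∧ jj G p = j ∧ mk p = s

/-- AD-CEL: the primes with labels `3` and `2` in the blocks (prime number theorem). -/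
def S_CEL : Prop := ∃ X₀ : ℕ, ∀ X : ℕ, X₀ ≤ X → ∀ j : ℕ, jj (GG X) (zz X) < j →
  |(((cel (GG X) j 3).card : ℝ) - ((cel (GG X) j 2).card : ℝ))| ≤
    (((cel (GG X) j 3).card : ℝ) + ((cel (GG X) j 2).card : ℝ)) / (eL X) ^ 2 ∧
  (((cel (GG X) j 3).card : ℝ) + ((cel (GG X) j 2).card : ℝ)) ≤ 2 * Real.exp ((j : ℝ) / GG X) / j

/-- AD-BIN: the central binomial coefficient. -/
def S_BIN : Prop := ∀ (m : ℕ) (t : ℤ), 1 ≤ m →
  |(((univ : Finset (Finset (Fin m))).filter fun A => t < 2 * (A.card : ℤ) - m).card : ℝ) / 2 ^ m -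
    1 / 2| ≤ (|(t : ℝ)| + 1) / Real.sqrt m

/-- the coins of a set: the primes `3` modulo `4` in the blocks above `z` -/
noncomputable def co (z G : ℕ) (S : Finset ℕ) : Finset ℕ :=
  S.filter fun p => p % 4 = 3 ∧ jj G z < jj G p

/-- the rest -/
noncomputable def re (z G : ℕ) (S : Finset ℕ) : Finset ℕ :=
  S.filter fun p => ¬ (p % 4 = 3 ∧ jj G z < jj G p)

/-- the primes in the blocks up to the one of `z` -/
noncomputable def lo (z G : ℕ) (S : Finset ℕ) : Finset ℕ := S.filter fun p => jj G p ≤ jj G z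

/-- the sets which are regular for the coins -/
noncomputable def RC (X z G K M T : ℕ) : Finset (Finset ℕ) :=
  (SS X).filter fun S => Set.InjOn (jj G) (co z G S : Set ℕ) ∧
    (∏ p ∈ re z G S, p) * ∏ p ∈ co z G S, XX G (jj G p) ≤ X ∧
    M ≤ (co z G S).card ∧ (co z G S).card ≤ K ∧ (lo z G S).card ≤ T

/-- AD-SKEL: the sum over the skeletons. -/
def S_SKEL : Prop := S_BIN → ∀ (X z G K M T b : ℕ) (V : ℤ) (η : ℝ), 1 ≤ X → 1 ≤ z → 1 ≤ G → 1 ≤ M →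
  b ≤ 1 → 0 ≤ η → (∀ j, jj G z < j → |(((cel G j 3).card : ℝ) - ((cel G j 2).card : ℝ))| ≤
    η * (((cel G j 3).card : ℝ) + ((cel G j 2).card : ℝ))) →
  |(((RC X z G K M T).filter fun S => (b : ℤ) * (sm z S).card + V < kv S).card : ℝ) -
    1 / 2 * ((RC X z G K M T).card : ℝ)| ≤
  (((1 + η) ^ K - 1) + (2 * T + |(V : ℝ)| + 1) / Real.sqrt M) * ((RC X z G K M T).card : ℝ)

/-- the bound for the number of the primes in the blocks up to the one of `z` -/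
noncomputable def TT (X : ℕ) : ℕ := ⌈(eL X) ^ (1 / 4 : ℝ)⌉₊

/-- AD-EX1: many coins, two coins in a block, sets near the boundary. -/
def S_EX1 : Prop := S_CEL → Filter.Tendsto (fun X : ℕ =>
  (((SS X).filter fun S => ¬ Set.InjOn (jj (GG X)) (co (zz X) (GG X) S : Set ℕ) ∨
    kk X < (co (zz X) (GG X) S).card ∨
    X < (∏ p ∈ re (zz X) (GG X) S, p) * ∏ p ∈ co (zz X) (GG X) S, XX (GG X) (jj (GG X) p)).card : ℝ) /
      X) Filter.atTop (nhds 0)

/-- AD-EX2: few coins. -/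
def S_EX2 : Prop := S_SIE → S_MER → Filter.Tendsto (fun X : ℕ =>
  (((SS X).filter fun S => (co (zz X) (GG X) S).card < ⌈eL X / 10⌉₊).card : ℝ) / X)
  Filter.atTop (nhds 0)

/-- AD-EX3: many small primes. -/
def S_EX3 : Prop := S_MER → Filter.Tendsto (fun X : ℕ =>
  (((SS X).filter fun S => TT X < (lo (zz X) (GG X) S).card).card : ℝ) / X)
  Filter.atTop (nhds 0)

/-- AD-CASM: the assembly of the coins. -/
def S_CASM : Prop := S_CEL → S_SKEL → S_BIN → S_EX1 → S_EX2 → S_EX3 → S_SIE → S_MER → S_LOW → S_COIN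

/-- AD-ASY: the final asymptotics. -/
def S_ASY : Prop := S_FS → S_NORM → S_BIL → S_BILK → S_EQ → S_LA → S_BOX → S_KEY → CntP → S_SIE →
  S_HAL → S_BAD → S_FEW → S_MER → S_LOW → S_COIN → S_NEG → S_PAR → S_C2 → S_DQ

end Pool.Agent.T3h78.AD
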